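import Pool.Agent.Q273.V.Stm

set_option autoImplicit false

/-! Project V, job ZOOM: the substitution which moves a point away from its conjugates. -/

namespace Pool.Agent.Q26.V

open Q273.V

/-- the real part of a complex number by its distance to a real point -/
lemma nrm_sq (z : ℂ) (r t : ℝ) : ‖(r : ℂ) * z + t‖ ^ 2 = (r * z.re + t) ^ 2 + (r * z.im) ^ 2 := by
  rw [← Complex.normSq_eq_norm_sq, Complex.normSq_apply]
  simp
  ring

theorem zoom : S_ZOOM := by
  intro x hinj hne hx
  have hd1 : 0 < ‖x 0 - x 1‖ := norm_pos_iff.2 (sub_ne_zero.2 fun h => by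
    have := hinj h
    exact absurd this (by decide))
  have hd2 : 0 < ‖x 0 - x 2‖ := norm_pos_iff.2 (sub_ne_zero.2 fun h => by
    have := hinj h
    exact absurd this (by decide))
  set d1 := ‖x 0 - x 1‖ with hd1e
  set d2 := ‖x 0 - x 2‖ with hd2e
  set del := min d1 d2 with hdel
  have hdel0 : 0 < del := lt_min hd1 hd2
  have hdel1 : del ≤ d1 := min_le_left _ _
  have hdel2 : del ≤ d2 := min_le_right _ _
  have hi0 : ∀ i : Fin 3, i ≠ 0 → i = 1 ∨ i = 2 := by decide
  by_cases hcase : 1 / 8 ≤ del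
  · refine ⟨1, -⌊(x 0).re⌋, 0, 1, by norm_num, ?_, ?_, ?_, ?_⟩
    · push_cast
      simp only [one_mul, zero_mul, zero_add, div_one, Complex.add_re, Complex.neg_re,
        Complex.intCast_re]
      have := Int.floor_le (x 0).re
      linarith
    · push_cast
      simp only [one_mul, zero_mul, zero_add, div_one, Complex.add_re, Complex.neg_re,
        Complex.intCast_re]
      have := Int.lt_floor_add_one (x 0).re
      linarith
    · intro i hi
      push_cast
      simp only [zero_mul, zero_add, norm_one, mul_one]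
      rcases hi0 i hi with rfl | rfl
      · linarith
      · linarith
    · push_cast
      simp only [zero_mul, zero_add, norm_one, mul_one]
      have := le_max_left d1 d2
      linarith
  · push Not at hcase
    have him : |(x 0).im| ≤ del := by
      rcases hx with h | ⟨h1, h2⟩
      · rw [h, abs_zero]
        exact hdel0.le
      · refine le_min ?_ ?_
        · have h3 := Complex.abs_im_le_norm (x 0 - x 1)
          rw [h1, Complex.sub_im, Complex.conj_im, sub_neg_eq_add] at h3
          rw [hd1e, h1]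
          have h4 : |(x 0).im + (x 0).im| = 2 * |(x 0).im| := by
            rw [← two_mul, abs_mul, abs_two]
          rw [h4] at h3
          have := abs_nonneg (x 0).im
          linarith
        · have h3 := Complex.abs_im_le_norm (x 0 - x 2)
          rw [Complex.sub_im, h2, sub_zero] at h3
          exact h3
    set D := Real.sqrt del with hD
    have hD0 : 0 < D := Real.sqrt_pos.2 hdel0
    have hD2 : D ^ 2 = del := Real.sq_sqrt hdel0.le
    have hD1 : D < 1 := by
      have : D ^ 2 < 1 ^ 2 := by rw [hD2]; linarith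
      exact lt_of_pow_lt_pow_left₀ 2 zero_le_one this
    set Q : ℕ := ⌊1 / D⌋₊ with hQ
    have hQ1 : (Q : ℝ) ≤ 1 / D := Nat.floor_le (by positivity)
    have hQ2 : 1 / D < (Q : ℝ) + 1 := Nat.lt_floor_add_one _
    have hQ0 : 0 < Q := by
      rw [hQ, Nat.floor_pos, le_div_iff₀ hD0]
      linarith
    obtain ⟨α, hα1, hα2⟩ := Real.exists_rat_abs_sub_le_and_den_le (x 0).re hQ0
    have hden : (0 : ℝ) < α.den := by exact_mod_cast α.pos
    have hdenQ : (α.den : ℝ) ≤ Q := by exact_mod_cast hα2
    -- the bottom row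
    have hb1 : |(α.den : ℝ) * (x 0).re - α.num| ≤ D := by
      have h1 : (α.den : ℝ) * (x 0).re - α.num = α.den * ((x 0).re - α) := by
        rw [mul_sub]
        congr 1
        rw [Rat.cast_def]
        field_simp
      rw [h1, abs_mul, abs_of_pos hden]
      have h2 : (α.den : ℝ) * |(x 0).re - α| ≤ α.den * (1 / (((Q : ℝ) + 1) * α.den)) :=
        mul_le_mul_of_nonneg_left hα1 hden.le
      refine h2.trans ?_
      have h3 : (α.den : ℝ) * (1 / (((Q : ℝ) + 1) * α.den)) = 1 / ((Q : ℝ) + 1) := by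
        field_simp
      rw [h3, div_le_iff₀ (by positivity)]
      rw [div_lt_iff₀ hD0] at hQ2
      linarith
    have hb2 : |(α.den : ℝ) * (x 0).im| ≤ D := by
      rw [abs_mul, abs_of_pos hden]
      calc (α.den : ℝ) * |(x 0).im| ≤ (1 / D) * del :=
            mul_le_mul (hdenQ.trans hQ1) him (abs_nonneg _) (by positivity)
        _ = D := by rw [← hD2]; field_simp
    have hn0 : ‖((α.den : ℤ) : ℂ) * x 0 + ((-α.num : ℤ) : ℂ)‖ ≤ 3 / 2 * D := by
      have h1 := nrm_sq (x 0) (α.den : ℝ) (-(α.num : ℝ))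
      have h2 : (((α.den : ℝ) : ℂ) * x 0 + ((-(α.num : ℝ) : ℝ) : ℂ)) =
          ((α.den : ℤ) : ℂ) * x 0 + ((-α.num : ℤ) : ℂ) := by push_cast; rfl
      rw [h2] at h1
      have h3 : ((α.den : ℝ) * (x 0).re + -(α.num : ℝ)) ^ 2 ≤ D ^ 2 := by
        rw [← sub_eq_add_neg, ← sq_abs ((α.den : ℝ) * (x 0).re - α.num)]
        exact pow_le_pow_left₀ (abs_nonneg _) hb1 2
      have h4 : ((α.den : ℝ) * (x 0).im) ^ 2 ≤ D ^ 2 := by
        rw [← sq_abs ((α.den : ℝ) * (x 0).im)]
        exact pow_le_pow_left₀ (abs_nonneg _) hb2 2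
      refine le_of_sq_le_sq ?_ (by positivity)
      rw [h1]
      nlinarith
    have hni : ∀ i : Fin 3, ∀ di : ℝ, di = ‖x 0 - x i‖ → del ≤ di →
        ‖((α.den : ℤ) : ℂ) * x i + ((-α.num : ℤ) : ℂ)‖ ≤ 5 / 2 * (di / D) := by
      intro i di hdi hle
      have h1 : ((α.den : ℤ) : ℂ) * x i + ((-α.num : ℤ) : ℂ) =
          (((α.den : ℤ) : ℂ) * x 0 + ((-α.num : ℤ) : ℂ)) - ((α.den : ℤ) : ℂ) * (x 0 - x i) := by
        ring
      rw [h1]
      refine (norm_sub_le _ _).trans ?_
      rw [norm_mul, ← hdi]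
      have h2 : ‖((α.den : ℤ) : ℂ)‖ = (α.den : ℝ) := by
        rw [Int.cast_natCast, Complex.norm_natCast]
      rw [h2]
      have h3 : (α.den : ℝ) * di ≤ di / D := by
        calc (α.den : ℝ) * di ≤ (1 / D) * di :=
              mul_le_mul_of_nonneg_right (hdenQ.trans hQ1) (hdel0.le.trans hle)
          _ = di / D := by ring
      have h4 : D ≤ di / D := by
        rw [le_div_iff₀ hD0, ← sq, hD2]
        exact hle
      linarith
    have hcop : IsCoprime (-α.num) (α.den : ℤ) := by
      rw [IsCoprime.neg_left_iff, Int.isCoprime_iff_nat_coprime, Int.natAbs_natCast]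
      exact α.reduced
    obtain ⟨a, b, hab⟩ := hcop
    have hden0 : ((α.den : ℤ) : ℂ) * x 0 + ((-α.num : ℤ) : ℂ) ≠ 0 := by
      intro h0
      have := (hne 0 (α.den : ℤ) (-α.num) h0).1
      have h1 := α.pos
      omega
    set z : ℂ := ((a : ℂ) * x 0 + ((-b : ℤ) : ℂ)) /
      (((α.den : ℤ) : ℂ) * x 0 + ((-α.num : ℤ) : ℂ)) with hz
    set m : ℤ := -⌊z.re⌋ with hm
    have hval : (((a + m * α.den : ℤ) : ℂ) * x 0 + ((-b + m * (-α.num) : ℤ) : ℂ)) /
        (((α.den : ℤ) : ℂ) * x 0 + ((-α.num : ℤ) : ℂ)) = z + m := by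
      rw [hz, div_add' _ _ _ hden0]
      congr 1
      push_cast
      ring
    refine ⟨a + m * α.den, -b + m * (-α.num), α.den, -α.num, ?_, ?_, ?_, ?_, ?_⟩
    · linear_combination hab
    · rw [hval, Complex.add_re, Complex.intCast_re, hm]
      have := Int.floor_le z.re
      push_cast
      linarith
    · rw [hval, Complex.add_re, Complex.intCast_re, hm]
      have := Int.lt_floor_add_one z.re
      push_cast
      linarith
    · intro i hi
      obtain ⟨di, hdi, hle, hpos⟩ : ∃ di : ℝ, di = ‖x 0 - x i‖ ∧ del ≤ di ∧ 0 < di := by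
        rcases hi0 i hi with rfl | rfl
        · exact ⟨d1, rfl, hdel1, hd1⟩
        · exact ⟨d2, rfl, hdel2, hd2⟩
      rw [← hdi]
      calc _ ≤ (3 / 2 * D) * (5 / 2 * (di / D)) :=
            mul_le_mul hn0 (hni i di hdi hle) (norm_nonneg _) (by positivity)
        _ = 15 / 4 * di := by field_simp; ring
        _ ≤ 8 * di := by linarith
    · have h1 := hni 1 d1 rfl hdel1
      have h2 := hni 2 d2 rfl hdel2
      calc _ ≤ (5 / 2 * (d1 / D)) * (5 / 2 * (d2 / D)) :=
            mul_le_mul h1 h2 (norm_nonneg _) (by positivity)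
        _ = 25 / 4 * (d1 * d2 / del) := by rw [← hD2]; field_simp; ring
        _ = 25 / 4 * max d1 d2 := by
          congr 1
          rw [div_eq_iff hdel0.ne', hdel, max_mul_min]
        _ ≤ 8 * max d1 d2 := by
          have := le_max_left d1 d2
          linarith

end Pool.Agent.Q26.V
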